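import Pool.Agent.W861.TF.Stm

set_option autoImplicit false

namespace Pool.Agent.W557.TF

open Pool.Agent.W861.TF

theorem toR_comb {m n : ℕ} (k : Fin m → ℤ) (V : Fin m → Fin n → ℤ) :
    toR (comb k V) = Fintype.linearCombination ℝ (fun i => toR (V i)) (toR k) := by
  funext j
  simp [toR, comb, Fintype.linearCombination_apply, Finset.sum_apply]

theorem comb_sub {m n : ℕ} (k k' : Fin m → ℤ) (V : Fin m → Fin n → ℤ) (j : Fin n) :
    comb (k - k') V j = comb k V j - comb k' V j := by
  simp [comb, Finset.sum_apply, sub_mul, Finset.sum_sub_distrib]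

theorem toR_sub {m : ℕ} (k k' : Fin m → ℤ) : toR (k - k') = toR k - toR k' := by
  funext j; simp [toR]

theorem cert : S_CERT := by
  classical
  intro h L m n D H V hH hV hc
  obtain ⟨e, g, s, he, hg, hs, hL, hD⟩ := hc
  set z0 : Fin h → Bool := fun _ => false with hz0
  let κ : Fin h → Fin m → ℤ := fun l => s (Function.update z0 l true) - s z0
  let Dd : (Fin h → Bool) × Fin h → Fin m → ℤ := fun x =>
    (s (Function.update x.1 x.2 true) - s (Function.update x.1 x.2 false)) - κ x.2
  let bet : Fin h → Fin h → Bool := fun x l => decide (H x l = 1)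
  let gam : Fin h → Fin h → Bool := fun x l => decide (H x l = -1)
  let k : Fin h → Fin m → ℤ := fun x => s (bet x) - s (gam x)
  have hLs : ∀ β γ i, |(s β - s γ) i| ≤ (L : ℤ) := fun β γ i => hL β γ i
  have hDs : ∀ β γ j, |comb (s β - s γ) V j| ≤ (D : ℤ) := fun β γ j => hD β γ j
  -- values at the coordinates e
  have hκe : ∀ l l', κ l (e l') = if l' = l then g l true - g l false else 0 := by
    intro l l'
    simp only [κ, Pi.sub_apply, hs]
    by_cases hl : l' = l
    · subst hl; simp [hz0]
    · simp [hl, hz0]
  have hDe : ∀ x l', Dd x (e l') = 0 := by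
    rintro ⟨β, l⟩ l'
    have h1 := hκe l l'
    simp only [Dd, Pi.sub_apply, h1, hs]
    by_cases hl : l' = l
    · subst hl; simp
    · simp [hl]
  -- choose a basis
  obtain ⟨J, a, ha, hspan, hind⟩ := exists_linearIndependent' ℝ (fun x => toR (Dd x))
  have : Finite J := Finite.of_injective a ha
  let _ : Fintype J := Fintype.ofFinite J
  let eqv := Fintype.equivFin J
  let y : Fin (Fintype.card J) → Fin m → ℤ := fun r => Dd (a (eqv.symm r))
  have hyind : LinearIndependent ℝ (fun r => toR (y r)) :=
    hind.comp eqv.symm eqv.symm.injective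
  have hyspan : Submodule.span ℝ (Set.range fun r => toR (y r)) =
      Submodule.span ℝ (Set.range fun x => toR (Dd x)) := by
    rw [← hspan]
    congr 1
    ext v
    constructor
    · rintro ⟨r, rfl⟩; exact ⟨eqv.symm r, rfl⟩
    · rintro ⟨r, rfl⟩; exact ⟨eqv r, by simp [y]⟩
  -- the main span claim
  have hE : ∀ T : Finset (Fin h), toR (s (fun l => decide (l ∈ T))) - toR (s z0) -
      ∑ l ∈ T, toR (κ l) ∈ Submodule.span ℝ (Set.range fun r => toR (y r)) := by
    rw [hyspan]
    intro T
    induction T using Finset.induction_on with
    | empty => simp [hz0]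
    | insert b T hb ih =>
      have h1 : (fun l => decide (l ∈ insert b T)) =
          Function.update (fun l => decide (l ∈ T)) b true := by
        funext l
        by_cases hl : l = b
        · subst hl; simp
        · simp [hl]
      have h2 : Function.update (fun l => decide (l ∈ T)) b false = (fun l => decide (l ∈ T)) := by
        funext l
        by_cases hl : l = b
        · subst hl; simp [hb]
        · simp [hl]
      rw [Finset.sum_insert hb, h1]
      have h3 : toR (Dd ((fun l => decide (l ∈ T)), b)) ∈
          Submodule.span ℝ (Set.range fun x => toR (Dd x)) :=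
        Submodule.subset_span ⟨_, rfl⟩
      have h4 : toR (Dd ((fun l => decide (l ∈ T)), b)) =
          toR (s (Function.update (fun l => decide (l ∈ T)) b true)) -
          toR (s (fun l => decide (l ∈ T))) - toR (κ b) := by
        simp only [Dd, toR_sub, h2]
      have h5 := Submodule.add_mem _ ih h3
      rw [h4] at h5
      convert h5 using 1
      abel
  have hsum : ∀ x, ∑ l, (H x l : ℝ) • toR (κ l) =
      ∑ l ∈ Finset.univ.filter (fun l => H x l = 1), toR (κ l) -
      ∑ l ∈ Finset.univ.filter (fun l => H x l = -1), toR (κ l) := by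
    intro x
    rw [Finset.sum_filter, Finset.sum_filter, ← Finset.sum_sub_distrib]
    refine Finset.sum_congr rfl fun l _ => ?_
    rcases hH x l with h1 | h1
    · simp [h1]
    · simp [h1]
  have hkx : ∀ x, toR (k x) - ∑ l, (H x l : ℝ) • toR (κ l) ∈
      Submodule.span ℝ (Set.range fun r => toR (y r)) := by
    intro x
    have h1 := hE (Finset.univ.filter (fun l => H x l = 1))
    have h2 := hE (Finset.univ.filter (fun l => H x l = -1))
    have h3 := Submodule.sub_mem _ h1 h2
    rw [hsum]
    simp only [Finset.mem_filter, Finset.mem_univ, true_and] at h3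
    have h4 : toR (k x) = toR (s (bet x)) - toR (s (gam x)) := toR_sub _ _
    rw [h4]
    convert h3 using 1
    simp only [bet, gam]
    abel
  -- independence
  have hvan : ∀ r l, toR (y r) (e l) = 0 := by
    intro r l
    have := hDe (a (eqv.symm r)) l
    simp only [toR, y, this, Int.cast_zero]
  have hindep : LinearIndependent ℝ (Sum.elim (fun l => toR (κ l)) (fun r => toR (y r))) := by
    rw [Fintype.linearIndependent_iff]
    intro c hcz
    rw [Fintype.sum_sum_type] at hcz
    simp only [Sum.elim_inl, Sum.elim_inr] at hcz
    have h1 : ∀ l, c (Sum.inl l) = 0 := by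
      intro l
      have h2 := congrFun hcz (e l)
      simp only [Pi.add_apply, Finset.sum_apply, Pi.smul_apply, smul_eq_mul, hvan, mul_zero,
        Finset.sum_const_zero, add_zero, Pi.zero_apply] at h2
      have h3 : ∀ l', c (Sum.inl l') * toR (κ l') (e l) =
          if l = l' then c (Sum.inl l) * ((g l true - g l false : ℤ) : ℝ) else 0 := by
        intro l'
        simp only [toR, hκe]
        split_ifs with h4
        · subst h4; rfl
        · simp
      rw [Finset.sum_congr rfl (fun l' _ => h3 l')] at h2
      simp only [Finset.sum_ite_eq, Finset.mem_univ, if_true] at h2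
      rcases mul_eq_zero.mp h2 with h4 | h4
      · exact h4
      · exfalso
        have h5 : g l true - g l false = 0 := by exact_mod_cast h4
        exact hg l (by omega)
    have h2 : ∑ r, c (Sum.inr r) • toR (y r) = 0 := by
      simpa [h1] using hcz
    have h3 := Fintype.linearIndependent_iff.mp hyind _ h2
    rintro (l | r)
    · exact h1 l
    · exact h3 r
  have hcard : h + Fintype.card J ≤ m := by
    have := hindep.fintype_card_le_finrank
    simpa using this
  have hinj : LinearMap.ker (Fintype.linearCombination ℝ (fun i => toR (V i))) = ⊥ :=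
    LinearMap.ker_eq_bot.mpr (linearIndependent_iff_injective_fintypeLinearCombination.mp hV)
  refine ⟨Fintype.card J, κ, y, k, hcard, ?_, ?_, ?_, hkx, ?_, ?_, ?_, ?_⟩
  · intro l i
    exact hLs _ _ i
  · intro r i
    have h1 := hLs (Function.update (a (eqv.symm r)).1 (a (eqv.symm r)).2 true)
      (Function.update (a (eqv.symm r)).1 (a (eqv.symm r)).2 false) i
    have h2 := hLs (Function.update z0 (a (eqv.symm r)).2 true) z0 i
    simp only [y, Dd, κ, Pi.sub_apply] at h1 h2 ⊢
    rw [abs_le] at h1 h2 ⊢
    constructor <;> omega
  · intro x i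
    exact hLs _ _ i
  · have h1 := hindep.map' _ hinj
    have h2 : (Sum.elim (fun l => toR (comb (κ l) V)) (fun r => toR (comb (y r) V))) =
        (Fintype.linearCombination ℝ fun i => toR (V i)) ∘
          Sum.elim (fun l => toR (κ l)) (fun r => toR (y r)) := by
      funext x
      rcases x with l | r
      · simp only [Sum.elim_inl, Function.comp_apply, toR_comb]
      · simp only [Sum.elim_inr, Function.comp_apply, toR_comb]
    rw [h2]
    exact h1
  · intro l j
    exact hDs _ _ j
  · intro r j
    have h1 := hDs (Function.update (a (eqv.symm r)).1 (a (eqv.symm r)).2 true)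
      (Function.update (a (eqv.symm r)).1 (a (eqv.symm r)).2 false) j
    have h2 := hDs (Function.update z0 (a (eqv.symm r)).2 true) z0 j
    simp only [y, Dd, κ]
    rw [comb_sub]
    rw [abs_le] at h1 h2 ⊢
    constructor <;> omega
  · intro x j
    exact hDs _ _ j

end Pool.Agent.W557.TF
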